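import Mathlib

namespace Pool.Agent.H.MP_130315_lc

/-- A signature: predicate and function symbols with arities; function symbols may be rigid. -/
structure Sig where
  Pred : Type
  Func : Type
  parity : Pred → ℕ
  farity : Func → ℕ
  rigid : Func → Prop

inductive Term (L : Sig) : Type
  | var : ℕ → Term L
  | app : (f : L.Func) → (Fin (L.farity f) → Term L) → Term L

/-- Formulas of InqBQ; `ior` is inquisitive disjunction, `iex` the inquisitive existential. -/
inductive Form (L : Sig) : Type
  | atom : (P : L.Pred) → (Fin (L.parity P) → Term L) → Form L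
  | eq : Term L → Term L → Form L
  | bot : Form L
  | and : Form L → Form L → Form L
  | ior : Form L → Form L → Form L
  | imp : Form L → Form L → Form L
  | all : ℕ → Form L → Form L
  | iex : ℕ → Form L → Form L

/-- A model with universe `W` and domain `D`. -/
structure Model (L : Sig) (W D : Type) where
  neW : Nonempty W
  neD : Nonempty D
  pred : W → (P : L.Pred) → (Fin (L.parity P) → D) → Prop
  func : W → (f : L.Func) → (Fin (L.farity f) → D) → D
  rigid : ∀ f, L.rigid f → ∀ w v, func w f = func v f
  sim : W → D → D → Prop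
  sim_equiv : ∀ w, Equivalence (sim w)
  sim_pred : ∀ w P a b, (∀ i, sim w (a i) (b i)) → (pred w P a ↔ pred w P b)
  sim_func : ∀ w f a b, (∀ i, sim w (a i) (b i)) → sim w (func w f a) (func w f b)

variable {L : Sig} {W D : Type}

def Term.val (M : Model L W D) (w : W) (g : ℕ → D) : Term L → D
  | .var x => g x
  | .app f ts => M.func w f fun i => (ts i).val M w g

/-- Support at a state under an assignment. -/
def Form.Supp (M : Model L W D) : Form L → Set W → (ℕ → D) → Prop
  | .atom P ts, s, g => ∀ w ∈ s, M.pred w P fun i => (ts i).val M w g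
  | .eq t u, s, g => ∀ w ∈ s, M.sim w (t.val M w g) (u.val M w g)
  | .bot, s, _ => s = ∅
  | .and φ ψ, s, g => φ.Supp M s g ∧ ψ.Supp M s g
  | .ior φ ψ, s, g => φ.Supp M s g ∨ ψ.Supp M s g
  | .imp φ ψ, s, g => ∀ t ⊆ s, φ.Supp M t g → ψ.Supp M t g
  | .all x φ, s, g => ∀ d, φ.Supp M s (Function.update g x d)
  | .iex x φ, s, g => ∃ d, φ.Supp M s (Function.update g x d)

end Pool.Agent.H.MP_130315_lc
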