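import Mathlib
import Pool.Agent.H.MP_130315_lc.Defs

namespace Pool.Agent.H.MP_130315_lc

def L0 : Sig := ⟨Bool, Unit, fun _ => 1, fun _ => 1, fun _ => True⟩

def sx (t : Term L0) : Term L0 := .app () fun _ => t
def U (t : Term L0) : Form L0 := .atom false fun _ => t
def P (t : Term L0) : Form L0 := .atom true fun _ => t
def neg (φ : Form L0) : Form L0 := .imp φ .bot
def qu (φ : Form L0) : Form L0 := .ior φ (neg φ)

def chi1 : Form L0 := .all 0 (.imp (U (.var 0)) (U (sx (.var 0))))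
def chi2 : Form L0 :=
  .imp (.imp (.all 0 (qu (U (.var 0)))) (.all 0 (qu (P (.var 0))))) (.iex 0 (P (.var 0)))
def psi : Form L0 :=
  .iex 0 (.iex 1 (.imp (.and (neg (U (.var 0))) (U (sx (.var 0)))) (P (.var 1))))
def phi : Form L0 := .imp (.and chi1 chi2) psi

variable {W D : Type} (M : Model L0 W D)

def u (w : W) (d : D) : Prop := M.pred w false fun _ => d
def p (w : W) (d : D) : Prop := M.pred w true fun _ => d
def f (w : W) (d : D) : D := M.func w () fun _ => d

theorem neg_iff (q : W → Prop) (s : Set W) :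
    (∀ t ⊆ s, (∀ w ∈ t, q w) → t = ∅) ↔ ∀ w ∈ s, ¬ q w := by
  constructor
  · intro h w hw hq
    have := h {w} (by simpa using hw) (by simpa using hq)
    simp at this
  · intro h t ht hq
    exact Set.eq_empty_of_forall_notMem fun w hw => h w (ht hw) (hq w hw)

theorem imp_iff (q r : W → Prop) (s : Set W) :
    (∀ t ⊆ s, (∀ w ∈ t, q w) → ∀ w ∈ t, r w) ↔ ∀ w ∈ s, q w → r w := by
  constructor
  · intro h w hw hq
    exact h {w} (by simpa using hw) (by simpa using hq) w rfl
  · intro h t ht hq w hw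
    exact h w (ht hw) (hq w hw)

theorem chi1_iff (s : Set W) (g : ℕ → D) :
    chi1.Supp M s g ↔ ∀ d, ∀ w ∈ s, u M w d → u M w (f M w d) :=
  forall_congr' fun d => imp_iff (fun w => u M w d) (fun w => u M w (f M w d)) s

theorem quU_iff (s : Set W) (g : ℕ → D) :
    (Form.all 0 (qu (U (.var 0)))).Supp M s g ↔
      ∀ d, (∀ w ∈ s, u M w d) ∨ ∀ w ∈ s, ¬ u M w d :=
  forall_congr' fun d => or_congr Iff.rfl (neg_iff (fun w => u M w d) s)

theorem quP_iff (s : Set W) (g : ℕ → D) :
    (Form.all 0 (qu (P (.var 0)))).Supp M s g ↔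
      ∀ d, (∀ w ∈ s, p M w d) ∨ ∀ w ∈ s, ¬ p M w d :=
  forall_congr' fun d => or_congr Iff.rfl (neg_iff (fun w => p M w d) s)

theorem chi2_iff (s : Set W) (g : ℕ → D) :
    chi2.Supp M s g ↔ ∀ t ⊆ s, (∀ r ⊆ t, (∀ d, (∀ w ∈ r, u M w d) ∨ ∀ w ∈ r, ¬ u M w d) →
      ∀ d, (∀ w ∈ r, p M w d) ∨ ∀ w ∈ r, ¬ p M w d) → ∃ d, ∀ w ∈ t, p M w d := by
  refine forall₂_congr fun t _ => imp_congr ?_ Iff.rfl
  exact forall₂_congr fun r _ => imp_congr (quU_iff M r g) (quP_iff M r g)

theorem psi_iff (s : Set W) (g : ℕ → D) :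
    psi.Supp M s g ↔ ∃ d e, ∀ w ∈ s, ¬ u M w d ∧ u M w (f M w d) → p M w e := by
  refine exists_congr fun d => exists_congr fun e => ?_
  rw [← imp_iff (fun w => ¬ u M w d ∧ u M w (f M w d)) (fun w => p M w e) s]
  refine forall₂_congr fun t _ => imp_congr ?_ Iff.rfl
  have := neg_iff (fun w => u M w d) t
  constructor
  · rintro ⟨h1, h2⟩ w hw
    exact ⟨this.1 h1 w hw, h2 w hw⟩
  · intro h
    exact ⟨this.2 fun w hw => (h w hw).1, fun w hw => (h w hw).2⟩

theorem countable_supp [Countable D] (s : Set W) (g : ℕ → D) : phi.Supp M s g := by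
  rintro t - ⟨h1, h2⟩
  rw [chi1_iff] at h1
  rw [chi2_iff] at h2
  rw [psi_iff]
  by_contra h
  push Not at h
  obtain ⟨w₀⟩ := M.neW
  have := M.neD
  obtain ⟨d, hd⟩ := exists_surjective_nat D
  have hf : ∀ w, f M w = f M w₀ := fun w => funext fun x => congrFun (M.rigid () trivial w w₀) _
  simp only [hf] at h h1
  let n : ℕ → D := fun k => (f M w₀)^[k] (d 0)
  have hn : ∀ k, n (k + 1) = f M w₀ (n k) := fun k => Function.iterate_succ_apply' _ _ _
  choose w hw hu hp using fun k => h (n k) (d k)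
  have up : ∀ k j, k < j → u M (w k) (n j) := by
    intro k j hkj
    induction hkj with
    | refl => rw [hn]; exact (hu k).2
    | step _ ih => rw [hn]; exact h1 _ _ (hw k) ih
  obtain ⟨e, he⟩ := h2 (Set.range w) (by rintro _ ⟨k, rfl⟩; exact hw k) (by
    intro r hr hU e
    have key : ∀ k j, k < j → w k ∈ r → w j ∈ r → False := by
      intro k j hkj hk hj
      rcases hU (n j) with h' | h'
      · exact (hu j).1 (h' _ hj)
      · exact h' _ hk (up k j hkj)
    by_contra hc
    push Not at hc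
    obtain ⟨⟨a, ha, ha'⟩, b, hb, hb'⟩ := hc
    obtain ⟨k, rfl⟩ := hr ha
    obtain ⟨j, rfl⟩ := hr hb
    rcases lt_trichotomy k j with e | e | e
    · exact key k j e ha hb
    · exact ha' (e ▸ hb')
    · exact key j k e hb ha)
  obtain ⟨k, rfl⟩ := hd e
  exact hp k (he _ ⟨k, rfl⟩)

def M0 : Model L0 (ℕ × Bool) (ℕ × Set ℕ) where
  neW := inferInstance
  neD := inferInstance
  pred := fun w b a => cond b (w.2 = true ↔ w.1 ∈ (a ⟨0, Nat.one_pos⟩).2)
    (w.1 < (a ⟨0, Nat.one_pos⟩).1)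
  func := fun _ _ a => ((a ⟨0, Nat.one_pos⟩).1 + 1, (a ⟨0, Nat.one_pos⟩).2)
  rigid := fun _ _ _ _ => rfl
  sim := fun _ => Eq
  sim_equiv := fun _ => eq_equivalence
  sim_pred := fun _ _ a b h => by rw [funext h]
  sim_func := fun _ _ a b h => by rw [funext h]

theorem u0 (w d) : u M0 w d ↔ w.1 < d.1 := Iff.rfl
theorem p0 (w d) : p M0 w d ↔ (w.2 = true ↔ w.1 ∈ d.2) := Iff.rfl
theorem f0 (w d) : f M0 w d = (d.1 + 1, d.2) := rfl

theorem not_supp (g : ℕ → ℕ × Set ℕ) : ¬ phi.Supp M0 Set.univ g := by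
  intro h
  have := h Set.univ Set.Subset.rfl ⟨?_, ?_⟩
  · rw [psi_iff] at this
    obtain ⟨d, e, h⟩ := this
    classical
    have := h (d.1, decide (d.1 ∉ e.2)) trivial (by simp [u0, f0])
    rw [p0] at this
    simp at this
  · rw [chi1_iff]
    intro d w _
    simp only [u0, f0]
    omega
  · rw [chi2_iff]
    intro t _ ht
    refine ⟨(0, {m | (m, true) ∈ t}), ?_⟩
    rintro ⟨m, b⟩ hw
    rw [p0]
    cases b
    · refine iff_of_false (by simp) fun hm => ?_
      have := ht {(m, false), (m, true)} (by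
        rintro _ (rfl | rfl)
        exacts [hw, hm]) (by
        intro d
        by_cases e : m < d.1
        · left
          rintro _ (rfl | rfl) <;> exact e
        · right
          rintro _ (rfl | rfl) <;> exact e) (0, ∅)
      rcases this with e | e
      · have := e (m, true) (by simp)
        simp [p0] at this
      · have := e (m, false) (by simp)
        simp [p0] at this
    · exact iff_of_true rfl hw

end Pool.Agent.H.MP_130315_lc
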